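import Mathlib
import Pool.Agent.TH506.AFF.Fin
import Pool.Agent.TH506.AFF.Bose
import Pool.Agent.TH506.APD.Asy

set_option autoImplicit false

namespace Pool.Agent.Results.MP_4b9833_co.AlmostAllOrders

open Finset Filter Topology Pool.Agent.TH506.APD Pool.Agent.TH506.AFF

/-- Some finite abelian group `G` of order `n ^ 2 - 1` contains an affine difference set of order
`n`: there are a subgroup `N` of order `n - 1` and a set `D` of `n` elements such that every element
`g ∉ N` has exactly one representation `g = a - b` with `a, b ∈ D` and no nonzero element of `N`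
has one. -/
def HasAbelianAffineDifferenceSet (n : ℕ) : Prop :=
  ∃ (G : Type) (_ : AddCommGroup G) (_ : Fintype G) (_ : DecidableEq G) (N : AddSubgroup G)
    (D : Finset G), Nat.card G = n ^ 2 - 1 ∧ Nat.card N = n - 1 ∧ D.card = n ∧
    (∀ g : G, g ∉ N → ((D ×ˢ D).filter (fun p => p.1 - p.2 = g)).card = 1) ∧
    (∀ g : G, g ∈ N → g ≠ 0 → ((D ×ˢ D).filter (fun p => p.1 - p.2 = g)).card = 0)

lemma isAO_of {n : ℕ} (h : HasAbelianAffineDifferenceSet n) : IsAO n := by
  obtain ⟨G, i1, i2, i3, N, D, h1, h2, h3, h4, h5⟩ := h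
  refine ⟨G, i1, N, D, h1, h2, h3, ?_, ?_⟩
  · intro g hg
    obtain ⟨q, hq⟩ := Finset.card_eq_one.1 (h4 g hg)
    have hmem : ∀ r : G × G, (r.1 ∈ D ∧ r.2 ∈ D) ∧ r.1 - r.2 = g ↔ r = q := by
      intro r
      have h6 : r ∈ ({q} : Finset (G × G)) ↔ r = q := Finset.mem_singleton
      rw [← h6, ← hq, mem_filter, mem_product]
    have hq' := (hmem q).2 rfl
    exact ⟨q, ⟨hq'.1.1, hq'.1.2, hq'.2⟩, fun r hr => (hmem r).1 ⟨⟨hr.1, hr.2.1⟩, hr.2.2⟩⟩
  · intro a ha b hb hab
    by_contra hne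
    have h6 := h5 (a - b) hab (sub_ne_zero.2 hne)
    rw [card_eq_zero, Finset.filter_eq_empty_iff] at h6
    exact h6 (x := (a, b)) (mem_product.2 ⟨ha, hb⟩) rfl

/-- Bose's theorem for primes -/
lemma of_prime (p : ℕ) (hp : p.Prime) : HasAbelianAffineDifferenceSet p := by
  classical
  have : Fact p.Prime := ⟨hp⟩
  refine ⟨Additive (GaloisField p 2)ˣ, inferInstance, inferInstance, inferInstance, NB p, DB p,
    card_GB p, card_NB p, card_DB p, ?_, ?_⟩
  · intro g hg
    rw [← rep_DB p g hg]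
  · intro g hg hg0
    rw [← norep_DB p g hg hg0]

/-- All but `O(X (log log X)² / (log X)²)` of the orders `n ≤ X` of affine difference sets in finite
abelian groups are primes, and the number of these orders is asymptotic to `X / log X`. -/
theorem result :
    (∃ (C : ℝ) (X0 : ℕ), ∀ X : ℕ, X0 ≤ X →
      ({n : ℕ | 2 ≤ n ∧ n ≤ X ∧ HasAbelianAffineDifferenceSet n ∧ ¬ n.Prime}.ncard : ℝ) ≤
        C * X * Real.log (Real.log X) ^ 2 / Real.log X ^ 2) ∧
    Tendsto (fun X : ℕ =>
      ({n : ℕ | 2 ≤ n ∧ n ≤ X ∧ HasAbelianAffineDifferenceSet n}.ncard : ℝ) / (X / Real.log X))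
      atTop (𝓝 1) := by
  classical
  have hfin : ∀ (X : ℕ) (P : ℕ → Prop), ({n : ℕ | 2 ≤ n ∧ n ≤ X ∧ P n}.ncard) =
      #((Icc 2 X).filter P) := by
    intro X P
    rw [← Set.ncard_coe_finset]
    congr 1
    ext n
    simp only [Set.mem_ofPred_eq, coe_filter, mem_Icc]
    tauto
  have hbad : ∀ X : ℕ, ({n : ℕ | 2 ≤ n ∧ n ≤ X ∧ HasAbelianAffineDifferenceSet n ∧ ¬ n.Prime}.ncard : ℝ) ≤
      (#((Icc 2 X).filter BadA) : ℝ) := by
    intro X
    rw [hfin X (fun n => HasAbelianAffineDifferenceSet n ∧ ¬ n.Prime)]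
    have h1 : (Icc 2 X).filter (fun n => HasAbelianAffineDifferenceSet n ∧ ¬ n.Prime) ⊆
        (Icc 2 X).filter BadA := by
      intro n hn
      rw [mem_filter] at hn ⊢
      exact ⟨hn.1, isAO_of hn.2.1, hn.2.2⟩
    have h2 : (#((Icc 2 X).filter (fun n => HasAbelianAffineDifferenceSet n ∧ ¬ n.Prime)) : ℝ) ≤
        #((Icc 2 X).filter BadA) := by exact_mod_cast card_le_card h1
    convert h2
  constructor
  · obtain ⟨C, X0, _, h⟩ := badA_rate
    refine ⟨C, X0, fun X hX => (hbad X).trans ?_⟩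
    have h1 := h X hX
    convert h1
  · rw [Metric.tendsto_atTop]
    intro ε hε
    obtain ⟨X1, h1⟩ := badA_small (η := ε / 2) (by positivity)
    obtain ⟨X4, h4⟩ := Metric.tendsto_atTop.1 pnt_nat (ε / 2) (by positivity)
    refine ⟨X1 + X4 + 2, fun X hX => ?_⟩
    have e1 := h1 X (by omega)
    have e4 := h4 X (by omega)
    have e0 := hbad X
    have hXr : (0 : ℝ) < X := by exact_mod_cast (by omega : 0 < X)
    have hX1 : (1 : ℝ) < X := by exact_mod_cast (by omega : 1 < X)
    have hlogX0 : 0 < Real.log X := Real.log_pos hX1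
    obtain ⟨N, hN⟩ : ∃ N : ℕ, N = {n : ℕ | 2 ≤ n ∧ n ≤ X ∧ HasAbelianAffineDifferenceSet n}.ncard := ⟨_, rfl⟩
    obtain ⟨b, hb⟩ : ∃ b : ℕ, b = {n : ℕ | 2 ≤ n ∧ n ≤ X ∧ HasAbelianAffineDifferenceSet n ∧ ¬ n.Prime}.ncard := ⟨_, rfl⟩
    rw [← hN]
    rw [← hb] at e0
    have hpi : Nat.primeCounting X = #((Icc 2 X).filter Nat.Prime) := by
      unfold Nat.primeCounting Nat.primeCounting'
      rw [Nat.count_eq_card_filter_range]
      congr 1
      ext m
      simp only [mem_filter, mem_range, mem_Icc]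
      constructor
      · rintro ⟨h5, h6⟩; exact ⟨⟨h6.two_le, by omega⟩, h6⟩
      · rintro ⟨h5, h6⟩; exact ⟨by omega, h6⟩
    have hsum : N = Nat.primeCounting X + b := by
      rw [hN, hb, hpi, hfin X HasAbelianAffineDifferenceSet,
        hfin X (fun n => HasAbelianAffineDifferenceSet n ∧ ¬ n.Prime)]
      have h5 := Finset.card_filter_add_card_filter_not
        (s := (Icc 2 X).filter HasAbelianAffineDifferenceSet) Nat.Prime
      rw [Finset.filter_filter, Finset.filter_filter] at h5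
      have h6 : (Icc 2 X).filter (fun a => HasAbelianAffineDifferenceSet a ∧ a.Prime) =
          (Icc 2 X).filter Nat.Prime := by
        ext n
        rw [mem_filter, mem_filter]
        exact ⟨fun h => ⟨h.1, h.2.2⟩, fun h => ⟨h.1, of_prime n h.2, h.2⟩⟩
      rw [h6] at h5
      rw [← h5]
      congr!
    have e1' : (b : ℝ) * Real.log X ≤ ε / 2 * X := by
      refine (mul_le_mul_of_nonneg_right e0 hlogX0.le).trans ?_
      convert e1
    have hval : (N : ℝ) / (X / Real.log X) = (Nat.primeCounting X : ℝ) * Real.log X / X +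
        (b : ℝ) * Real.log X / X := by
      rw [hsum]
      push_cast
      field_simp
    have hb1 : (b : ℝ) * Real.log X / X ≤ ε / 2 := by
      rw [div_le_iff₀ hXr]; exact e1'
    have hb0 : 0 ≤ (b : ℝ) * Real.log X / X := by positivity
    rw [Real.dist_eq, abs_lt] at e4 ⊢
    rw [hval]
    constructor <;> linarith [e4.1, e4.2]

end Pool.Agent.Results.MP_4b9833_co.AlmostAllOrders
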